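import Mathlib
import Pool.Agent.H.MP_86dbc5_an.C

namespace Pool.Agent.H.MP_27056a_lc

open MeasureTheory Set Filter Pool.Agent.H.MP_86dbc5_an
open scoped ComplexConjugate

variable {d : ℕ}

abbrev T (d : ℕ) := Fin d → UnitAddCircle

noncomputable def co (i : Fin d) : T d →+ UnitAddCircle := Pi.evalAddMonoidHom _ i

theorem inv {s : Set (T d)} (hs : MeasurableSet s) (B : Set (T d))
    (hB : ∀ b ∈ B, ∀ᵐ x, x + b ∈ s ↔ x ∈ s) {t : T d}
    (ht : ∀ m : Fin d → ℤ, (∀ b ∈ B, ∑ i, m i • b i = 0) → ∑ i, m i • t i = 0) :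
    ∀ᵐ x, x + t ∈ s ↔ x ∈ s := by
  classical
  haveI : IsProbabilityMeasure (volume : Measure UnitAddCircle) := ⟨UnitAddCircle.measure_univ⟩
  let F : T d → ℂ := s.indicator 1
  have hF : MemLp F 2 volume := (memLp_const 1).indicator hs
  have hF' := hF.comp_measurePreserving (measurePreserving_add_right volume t)
  have e : ∀ (m : Fin d →₀ ℤ) x, dm co m x = ∑ i, m i • x i := fun m x => by
    rw [dm_apply]
    exact Finset.sum_subset (Finset.subset_univ _) fun i _ hi => by
      rw [Finsupp.notMem_support_iff.1 hi, zero_smul]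
  have bd : ∀ (m : Fin d →₀ ℤ) {G : T d → ℂ}, MemLp G 2 volume →
      Integrable (fun x => E (dm co m x) * conj (G x)) := fun m G h =>
    (h.star.integrable one_le_two).bdd_mul (E_cont.comp
      (dm_cont co (fun i => continuous_apply i) m)).aestronglyMeasurable
        (Eventually.of_forall fun x => (E_norm _).le)
  have := zero_of_chi co volume (fun i => continuous_apply i) (fun x y h => funext h)
    (hF'.sub hF) fun m => by
      simp only [Pi.sub_apply, map_sub, mul_sub]
      rw [integral_sub (bd m hF') (bd m hF), ← integral_add_right_eq_self _ (-t)]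
      simp only [Function.comp, neg_add_cancel_right, map_add, E_add, mul_right_comm _ (E _)]
      rw [integral_mul_const]
      by_cases h : ∀ b ∈ B, ∑ i, m i • b i = 0
      · rw [map_neg, e m t, ht m h, neg_zero, E_zero, mul_one, sub_self]
      · push Not at h
        obtain ⟨b, hb, h⟩ := h
        rw [int_shift co volume (a := b) (l := 1) ((hB b hb).mono fun x hx => by
          simp [F, indicator, hx]) m (by
            rw [map_one, mul_one, ← E_zero, e]
            exact fun x => h (E_inj x)), zero_mul, sub_self]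
  filter_upwards [this] with x hx
  by_cases a : x + t ∈ s <;> by_cases b : x ∈ s <;> simp_all [F]

noncomputable def th : ℝ := liouvilleNumber 2

theorem ind (m : Fin d → ℤ) (q : ℤ) (h : ∑ i, (m i : ℝ) * th ^ (i.1 + 1) = q) (i : Fin d) :
    m i = 0 := by
  have := transcendental_iff_injective.1 (transcendental_liouvilleNumber (m := 2) le_rfl)
    (a₁ := ∑ i, Polynomial.monomial (i.1 + 1) (m i)) (a₂ := Polynomial.C q) (by simpa [th] using h)
  simpa [Polynomial.coeff_monomial, Fin.val_inj, ← Polynomial.C_eq_intCast, -eq_intCast] using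
    congrArg (·.coeff (i.1 + 1)) this

noncomputable def av (j : Fin d) : T d :=
  fun i => ((if i = j then 1 / 2 else th ^ (i.1 + 1) : ℝ) : UnitAddCircle)

noncomputable def ph (n : Fin d → ℤ) : T d := ∑ j, n j • av j

theorem ph_add (m n : Fin d → ℤ) : ph (m + n) = ph m + ph n := by
  simp [ph, add_smul, Finset.sum_add_distrib]

theorem ph_single (j : Fin d) : ph (Pi.single j 1) = av j := by
  simp [ph, Pi.single_apply]

theorem key {j : Fin d} {m : Fin d → ℤ} (h : ∑ i, m i • av j i = 0) : ∀ i ≠ j, m i = 0 := by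
  intro i hi
  simp only [av, ← AddCircle.coe_zsmul, ← QuotientAddGroup.mk_sum] at h
  obtain ⟨q, hq⟩ := (AddCircle.coe_eq_zero_iff _).1 h
  have := ind (Function.update (2 • m) j 0) (2 * q - m j) (by
    rw [← Finset.add_sum_erase _ _ (Finset.mem_univ j)] at hq ⊢
    rw [Finset.sum_congr rfl fun k hk => by rw [if_neg (Finset.ne_of_mem_erase hk)]] at hq
    rw [Finset.sum_congr rfl fun k hk => by rw [Function.update_of_ne (Finset.ne_of_mem_erase hk)]]
    simp only [Function.update_self, if_true, zsmul_eq_mul, mul_one, Pi.smul_apply, nsmul_eq_mul,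
      Int.cast_mul, mul_assoc, ← Finset.mul_sum, Int.cast_sub] at hq ⊢
    push_cast
    linarith) i
  simpa [hi] using this

theorem free (hd : 2 ≤ d) {n : Fin d → ℤ} (h : ph n = 0) : n = 0 := by
  have k : ∀ i, n i = ∑ j, n j := fun i => by
    have h := congrFun h i
    simp only [ph, Finset.sum_apply, Pi.smul_apply, av, ← AddCircle.coe_zsmul,
      ← QuotientAddGroup.mk_sum] at h
    obtain ⟨q, hq⟩ := (AddCircle.coe_eq_zero_iff _).1 h
    rw [← Finset.add_sum_erase _ _ (Finset.mem_univ i)] at hq ⊢
    rw [Finset.sum_congr rfl fun k hk => by rw [if_neg (Finset.ne_of_mem_erase hk).symm]] at hq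
    have := ind (Pi.single i (2 * ∑ j ∈ Finset.univ.erase i, n j)) (2 * q - n i) (by
      simp only [if_true, zsmul_eq_mul, mul_one, ← Finset.sum_mul] at hq
      simp only [Pi.single_apply, Int.cast_ite, Int.cast_zero, ite_mul, zero_mul,
        Finset.sum_ite_eq', Finset.mem_univ, if_true]
      push_cast
      linarith) i
    rw [Pi.single_eq_same] at this
    omega
  have s := Finset.sum_congr (rfl : Finset.univ = _) fun i _ => k i
  rw [Finset.sum_const, Finset.card_fin, nsmul_eq_mul] at s
  funext i
  rw [k i]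
  have : (2 : ℤ) ≤ d := by exact_mod_cast hd
  exact by_contra fun x => by
    have := mul_right_cancel₀ x ((one_mul _).trans s)
    omega

theorem col : ∃ c : UnitAddCircle → Bool, Measurable c ∧ ∀ x, c (((1 / 2 : ℝ) : UnitAddCircle) + x) ≠ c x := by
  refine ⟨fun x => decide ((AddCircle.equivIco 1 0 x : ℝ) < 1 / 2), measurable_to_bool ?_, fun x => ?_⟩
  · convert measurableSet_lt (measurable_subtype_coe.comp
      (AddCircle.measurableEquivIco 1 0).measurable) (measurable_const (a := (1 / 2 : ℝ))) using 1
    ext x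
    exact decide_eq_true_iff
  · obtain ⟨⟨r, a⟩, rfl⟩ := (AddCircle.equivIco 1 0).symm.surjective x
    beta_reduce
    rw [Equiv.apply_symm_apply]
    obtain ⟨a, b⟩ := a
    show decide ((AddCircle.equivIco 1 0 (((1 / 2 + r : ℝ)) : UnitAddCircle) : ℝ) < _) ≠ _
    by_cases h : r < 1 / 2
    · rw [AddCircle.equivIco_coe_eq ⟨by linarith, by linarith⟩]
      simp only [ne_eq, decide_eq_decide]
      exact fun x => by linarith [x.2 h]
    · rw [show 1 / 2 + r = r - 1 / 2 + 1 by ring, AddCircle.coe_add_period,
        AddCircle.equivIco_coe_eq ⟨by linarith, by linarith⟩]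
      simp only [ne_eq, decide_eq_decide]
      exact fun x => h (x.1 (by linarith))

theorem nocol (hd : 2 ≤ d) (c : T d → Fin (2 ^ d)) (hc : Measurable c) :
    ¬ ∀ x k, ∃ ε : Fin d → ℤ, (∀ i, ε i = 0 ∨ ε i = 1) ∧ c (ph ε + x) = k := by
  classical
  intro H
  have inj : ∀ x (ε ε' : Fin d → ℤ), (∀ i, ε i = 0 ∨ ε i = 1) → (∀ i, ε' i = 0 ∨ ε' i = 1) →
      c (ph ε + x) = c (ph ε' + x) → ε = ε' := fun x ε ε' a b h => by
    have e : ∀ ε : Fin d → ℤ, (∀ i, ε i = 0 ∨ ε i = 1) →
        (fun i => if decide (ε i = 1) = true then 1 else 0) = ε := fun ε a => funext fun i => by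
      rcases a i with a | a <;> simp [a]
    have := ((Fintype.bijective_iff_surjective_and_card fun δ : Fin d → Bool =>
      c (ph (fun i => if δ i then 1 else 0) + x)).2 ⟨fun k => by
        obtain ⟨ε, a, b⟩ := H x k
        exact ⟨fun i => decide (ε i = 1), by rw [← b]; beta_reduce; rw [e ε a]⟩, by simp⟩).1
      (a₁ := fun i => decide (ε i = 1)) (a₂ := fun i => decide (ε' i = 1))
      (by beta_reduce; rw [e ε a, e ε' b, h])
    rw [← e ε a, ← e ε' b]
    funext i
    rw [congrFun this i]
  let S : Fin d → Fin (2 ^ d) → Set (T d) := fun i k =>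
    {x | ∃ ε : Fin d → ℤ, (∀ i, ε i = 0 ∨ ε i = 1) ∧ ε i = 0 ∧ c (ph ε + x) = k}
  have sm : ∀ i k, MeasurableSet (S i k) := fun i k => measurableSet_setOfPred.2
    (.exists fun ε => measurable_const.and (measurable_const.and (measurableSet_setOfPred.1
      (hc.comp (measurable_const_add _) (measurableSet_singleton k)))))
  have s1 : ∀ i k x, x + av i ∈ S i k ↔ x ∉ S i k := fun i k x => by
    have e : ∀ ε, ph ε + (x + av i) = ph (ε + Pi.single i 1) + x := fun ε => by
      rw [ph_add, ph_single]; abel
    constructor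
    · rintro ⟨ε, a1, a2, a3⟩ ⟨ε', b1, b2, b3⟩
      have := congrFun (inj x (ε + Pi.single i 1) ε' (fun l => by
        by_cases h : l = i
        · simp [h, a2]
        · simpa [h] using a1 l) b1 (by rw [← e, a3, b3])) i
      simp [a2, b2] at this
    · intro h
      obtain ⟨ε, a, b⟩ := H x k
      have a' : ε i = 1 := (a i).resolve_left fun y => h ⟨ε, a, y, b⟩
      refine ⟨ε - Pi.single i 1, fun l => ?_, by simp [a'], by rw [e, sub_add_cancel, b]⟩
      by_cases h : l = i
      · simp [h, a']
      · simpa [h] using a l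
  have s2 : ∀ k x, (∀ i, x ∈ S i k) → c x = k := fun k x h => by
    choose ε a1 a2 a3 using h
    have i : Fin d := ⟨0, by omega⟩
    have : ε i = 0 := funext fun l => by
      rw [inj x _ _ (a1 i) (a1 l) ((a3 i).trans (a3 l).symm), a2, Pi.zero_apply]
    simpa [this, ph] using a3 i
  have s3 : ∀ i k u u', u i = u' i → ∀ᵐ x, x + u ∈ S i k ↔ x + u' ∈ S i k := by
    intro i k u u' h
    have := (measurePreserving_add_right volume u').quasiMeasurePreserving.ae
      (inv (sm i k) {av i + av i} (t := u - u') (by
        rintro _ rfl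
        exact Eventually.of_forall fun x => by rw [← add_assoc, s1, s1, not_not])
        fun m hm => Finset.sum_eq_zero fun l _ => by
          by_cases e : l = i
          · simp [e, h]
          · have := key (j := i) (m := m + m) (by
              simpa [add_smul, Finset.sum_add_distrib] using hm) l e
            rw [show m l = 0 by simpa using this, zero_smul])
    simpa [add_assoc] using this
  let i : Fin d := ⟨0, by omega⟩
  let j : Fin d := ⟨1, by omega⟩
  have ij : i ≠ j := by simp [i, j]
  let k : Fin (2 ^ d) := ⟨0, by positivity⟩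
  let h : (Fin d → Bool) → T d := fun δ l => if δ l then av l l else 0
  have s4 : ∀ᵐ x, x + -av j ∈ S i k ↔ x ∈ S i k := by
    filter_upwards [ae_all_iff.2 fun δ => ae_all_iff.2 fun l =>
      s3 l k (h δ) (if δ l then av l else 0) (by simp only [h]; split_ifs <;> rfl),
      ae_all_iff.2 fun δ => s3 i k (h δ - av j) (-av j + if δ i then av i else 0)
        (by simp only [h, Pi.sub_apply, Pi.add_apply]; split_ifs <;> simp [add_comm, sub_eq_add_neg])]
      with x a b
    have c1 := s2 k _ fun l => (a (fun l => decide (x ∉ S l k)) l).2 (by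
      by_cases e : x ∈ S l k <;> simp [e, s1])
    have c2 := (b fun l => decide (x ∉ S l k)).1 ⟨Pi.single j 1, fun l => by
      by_cases e : l = j <;> simp [e], by simp [ij], by rw [ph_single]; convert c1 using 2; abel⟩
    by_cases e : x ∈ S i k
    · simpa [e] using c2
    · simpa [e, ← add_assoc, s1] using c2
  obtain ⟨x, hx⟩ := (inv (sm i k) {av i + av i, -av j} (t := av i) (by
    rintro _ (rfl | rfl)
    · exact Eventually.of_forall fun x => by rw [← add_assoc, s1, s1, not_not]
    · exact s4) fun m hm => Finset.sum_eq_zero fun l _ => by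
      have : m l = 0 := by
        by_cases e : l = i
        · exact key (j := j) (by simpa using hm _ (Or.inr rfl)) l (e ▸ ij)
        · simpa using key (j := i) (m := m + m) (by
            simpa [add_smul, Finset.sum_add_distrib] using hm _ (Or.inl rfl)) l e
      rw [this, zero_smul]).exists
  exact iff_not_self (hx.symm.trans (s1 i k x))

end Pool.Agent.H.MP_27056a_lc
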